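import Pool.Agent.Q324.FO.Pos

/-!
# A back-and-forth criterion for the language of orders, applied to posets over sets with shifts
-/

namespace Pool.Agent.Q324.FO

open FirstOrder FirstOrder.Language

/-- The quantifier depth of a formula. -/
def qd {L : Language} {α : Type} : ∀ {n : ℕ}, L.BoundedFormula α n → ℕ
  | _, .falsum => 0
  | _, .equal _ _ => 0
  | _, .rel _ _ => 0
  | _, .imp f g => max (qd f) (qd g)
  | _, .all f => qd f + 1

/-- satisfaction of a formula of the language of orders by a tuple, for a given relation -/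
def Sat {M : Type} (r : M → M → Prop) {n : ℕ} (φ : Language.order.BoundedFormula Empty n)
    (x : Fin n → M) : Prop :=
  @BoundedFormula.Realize Language.order M (@orderStructure M ⟨r⟩) Empty n φ default x

/-- The back-and-forth criterion. -/
theorem game {M N : Type} {r : M → M → Prop} {r' : N → N → Prop} (K : ℕ)
    (R : ℕ → (n : ℕ) → (Fin n → M) → (Fin n → N) → Prop)
    (hR0 : ∀ k n x y, R k n x y → ∀ a b, (x a = x b ↔ y a = y b) ∧ (r (x a) (x b) ↔ r' (y a) (y b)))
    (hforth : ∀ k n x y, n + (k + 1) ≤ K → R (k + 1) n x y →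
      ∀ u, ∃ v, R k (n + 1) (Fin.snoc x u) (Fin.snoc y v))
    (hback : ∀ k n x y, n + (k + 1) ≤ K → R (k + 1) n x y →
      ∀ v, ∃ u, R k (n + 1) (Fin.snoc x u) (Fin.snoc y v))
    {n : ℕ} (φ : Language.order.BoundedFormula Empty n) :
    ∀ (k : ℕ) (x : Fin n → M) (y : Fin n → N), qd φ ≤ k → n + k ≤ K → R k n x y →
      (Sat r φ x ↔ Sat r' φ y) := by
  induction φ with
  | falsum => intro k x y _ _ _; exact Iff.rfl
  | equal t1 t2 =>
    intro k x y _ _ h
    rcases t1 with (a | a) | ⟨f, -⟩
    · exact a.elim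
    · rcases t2 with (b | b) | ⟨f, -⟩
      · exact b.elim
      · exact (hR0 _ _ _ _ h a b).1
      · exact Empty.elim f
    · exact Empty.elim f
  | rel R' ts =>
    intro k x y _ _ h
    cases R' with
    | le =>
      rcases h0 : ts 0 with (a | a) | ⟨f, -⟩
      · exact a.elim
      · rcases h1 : ts 1 with (b | b) | ⟨f, -⟩
        · exact b.elim
        · have h2 := (hR0 _ _ _ _ h a b).2
          have e1 : Sat r (BoundedFormula.rel orderRel.le ts) x ↔ r (x a) (x b) := by
            unfold Sat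
            letI : LE M := ⟨r⟩
            letI := @orderStructure M ⟨r⟩
            change r (Term.realize (Sum.elim default x) (ts 0)) (Term.realize (Sum.elim default x) (ts 1)) ↔ _
            rw [h0, h1]
            rfl
          have e2 : Sat r' (BoundedFormula.rel orderRel.le ts) y ↔ r' (y a) (y b) := by
            unfold Sat
            letI : LE N := ⟨r'⟩
            letI := @orderStructure N ⟨r'⟩
            change r' (Term.realize (Sum.elim default y) (ts 0)) (Term.realize (Sum.elim default y) (ts 1)) ↔ _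
            rw [h0, h1]
            rfl
          rw [e1, e2]
          exact h2
        · exact Empty.elim f
      · exact Empty.elim f
  | imp f g ihf ihg =>
    intro k x y hq hn h
    have h1 := ihf k x y (le_trans (le_max_left _ _) hq) hn h
    have h2 := ihg k x y (le_trans (le_max_right _ _) hq) hn h
    exact ⟨fun h3 h4 => h2.1 (h3 (h1.2 h4)), fun h3 h4 => h2.2 (h3 (h1.1 h4))⟩
  | all f ih =>
    intro k x y hq hn h
    have hq' : qd f + 1 ≤ k := hq
    obtain ⟨k, rfl⟩ : ∃ k', k = k' + 1 := ⟨k - 1, by omega⟩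
    constructor
    · intro h1 v
      obtain ⟨u, hu⟩ := hback k _ x y hn h v
      exact (ih k _ _ (by omega) (by omega) hu).1 (h1 u)
    · intro h1 u
      obtain ⟨v, hv⟩ := hforth k _ x y hn h u
      exact (ih k _ _ (by omega) (by omega) hv).2 (h1 v)

/-! ### Places and types -/

/-- the kind of an element -/
def ty {I : Type} : El I → Fin 5
  | .bot => 0
  | .x _ => 1
  | .y _ => 2
  | .m _ => 3
  | .top => 4

/-- the place of an element (`p` for `bot` and `top`) -/
def plc {I : Type} (p : I) : El I → I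
  | .x i => i
  | .y i => i
  | .m i => i
  | _ => p

theorem el_ext {I : Type} (p : I) {u v : El I} (h1 : ty u = ty v) (h2 : plc p u = plc p v) :
    u = v := by
  cases u <;> cases v <;> simp [ty] at h1 <;> simp_all [plc]

instance {I : Type} [Finite I] [Nonempty I] : Finite (El I) := by
  obtain ⟨p⟩ := (inferInstance : Nonempty I)
  exact Finite.of_injective (fun u => (ty u, plc p u))
    (fun u v h => el_ext p (congrArg Prod.fst h) (congrArg Prod.snd h))

/-- shifts: an action of the integers -/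
structure Shift (I : Type) where
  /-- the action -/
  s : ℤ → I → I
  zero : ∀ i, s 0 i = i
  add : ∀ a b i, s (a + b) i = s a (s b i)

namespace Shift

variable {I : Type} (S : Shift I)

theorem neg (z : ℤ) (i j : I) : S.s z i = j ↔ S.s (-z) j = i := by
  constructor
  · rintro rfl
    rw [← S.add, neg_add_cancel, S.zero]
  · rintro rfl
    rw [← S.add, add_neg_cancel, S.zero]

/-- no short cycles -/
def Free (K : ℕ) : Prop := ∀ i z, |z| ≤ 2 ^ K → S.s z i = i → z = 0

/-- there is a place far from any few places -/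
def Far (K : ℕ) : Prop :=
  ∀ n : ℕ, n ≤ K → ∀ g : Fin n ⊕ Bool → I, ∃ j, ∀ a, ∀ w : ℤ, |w| ≤ 2 ^ K → j ≠ S.s w (g a)

theorem far_of_card [Fintype I] {K : ℕ} (h : (K + 2) * (2 * 2 ^ K + 1) < Fintype.card I) :
    S.Far K := by
  classical
  intro n hn g
  set T : Finset I := ((Finset.univ : Finset (Fin n ⊕ Bool)) ×ˢ
    Finset.Icc (-(2 ^ K : ℤ)) (2 ^ K : ℤ)).image (fun w => S.s w.2 (g w.1)) with hT
  have hc : T.card < Fintype.card I := by
    refine lt_of_le_of_lt Finset.card_image_le (lt_of_le_of_lt ?_ h)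
    rw [Finset.card_product, Finset.card_univ, Int.card_Icc, Fintype.card_sum, Fintype.card_fin,
      Fintype.card_bool]
    refine Nat.mul_le_mul (by omega) ?_
    have : (2 : ℤ) ^ K = ((2 ^ K : ℕ) : ℤ) := by push_cast; rfl
    rw [this]
    omega
  obtain ⟨j, hj⟩ : ∃ j, j ∉ T := by
    by_contra hne
    push Not at hne
    rw [Finset.eq_univ_iff_forall.2 hne, Finset.card_univ] at hc
    exact lt_irrefl _ hc
  refine ⟨j, fun a w hw hjw => hj ?_⟩
  rw [hT, Finset.mem_image]
  refine ⟨(a, w), ?_, hjw.symm⟩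
  rw [Finset.mem_product]
  exact ⟨Finset.mem_univ _, Finset.mem_Icc.2 (abs_le.1 hw)⟩

end Shift

/-- the places of a tuple, and the two special places -/
def ex {I : Type} (p q : I) {n : ℕ} (x : Fin n → El I) : Fin n ⊕ Bool → I
  | .inl a => plc p (x a)
  | .inr false => p
  | .inr true => q

/-- The relation of the back-and-forth argument. -/
def Rel {I J : Type} (S : Shift I) (T : Shift J) (p q : I) (p' q' : J) (k n : ℕ)
    (x : Fin n → El I) (y : Fin n → El J) : Prop :=
  (∀ a, ty (x a) = ty (y a)) ∧ ∀ a b : Fin n ⊕ Bool, ∀ z : ℤ, |z| ≤ 2 ^ k →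
    (S.s z (ex p q x a) = ex p q x b ↔ T.s z (ex p' q' y a) = ex p' q' y b)

theorem Rel.symm {I J : Type} {S : Shift I} {T : Shift J} {p q : I} {p' q' : J} {k n : ℕ}
    {x : Fin n → El I} {y : Fin n → El J} (h : Rel S T p q p' q' k n x y) :
    Rel T S p' q' p q k n y x :=
  ⟨fun a => (h.1 a).symm, fun a b z hz => (h.2 a b z hz).symm⟩

section

variable {I J : Type} {S : Shift I} {T : Shift J} {p q : I} {p' q' : J}

theorem le_iff_of (u v : El I) (u' v' : El J) (h1 : ty u = ty u') (h2 : ty v = ty v')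
    (h3 : ∀ z : ℤ, |z| ≤ 1 → (S.s z (plc p v) = plc p u ↔ T.s z (plc p' v') = plc p' u'))
    (h4 : ∀ z : ℤ, |z| ≤ 1 → (S.s z p = plc p u ↔ T.s z p' = plc p' u'))
    (h5 : ∀ z : ℤ, |z| ≤ 1 → (S.s z q = plc p u ↔ T.s z q' = plc p' u')) :
    le (S.s 1) p q u v ↔ le (T.s 1) p' q' u' v' := by
  have a3 := h3 0 (by norm_num)
  have b3 := h3 1 (by norm_num)
  have a4 := h4 0 (by norm_num)
  have b4 := h4 1 (by norm_num)
  have a5 := h5 0 (by norm_num)
  have b5 := h5 1 (by norm_num)
  rw [S.zero, T.zero] at a3 a4 a5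
  have c3 := eq_comm.trans (a3.trans eq_comm)
  have d3 := eq_comm.trans (b3.trans eq_comm)
  have c4 := eq_comm.trans (a4.trans eq_comm)
  have d4 := eq_comm.trans (b4.trans eq_comm)
  have c5 := eq_comm.trans (a5.trans eq_comm)
  have d5 := eq_comm.trans (b5.trans eq_comm)
  clear h3 h4 h5 a3 b3 a4 b4 a5 b5
  cases u <;> cases u' <;> simp [ty] at h1 <;> cases v <;> cases v' <;> simp [ty] at h2 <;>
    simp only [plc] at c3 d3 c4 d4 c5 d5 <;> simp only [le, c3, d3, c4, d4, c5, d5]

theorem rel_zero {k n : ℕ} {x : Fin n → El I} {y : Fin n → El J}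
    (h : Rel S T p q p' q' k n x y) (a b : Fin n) :
    (x a = x b ↔ y a = y b) ∧ (le (S.s 1) p q (x a) (x b) ↔ le (T.s 1) p' q' (y a) (y b)) := by
  obtain ⟨h1, h2⟩ := h
  have hk : ∀ z : ℤ, |z| ≤ 1 → |z| ≤ 2 ^ k := fun z hz => le_trans hz (one_le_pow₀ (by norm_num))
  constructor
  · have h3 := h2 (.inl a) (.inl b) 0 (hk _ (by norm_num))
    rw [S.zero, T.zero] at h3
    constructor
    · intro e
      refine el_ext p' ?_ (h3.1 (congrArg (plc p) e))
      rw [← h1, ← h1, e]
    · intro e
      refine el_ext p ?_ (h3.2 (congrArg (plc p') e))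
      rw [h1, h1, e]
  · exact le_iff_of _ _ _ _ (h1 a) (h1 b) (fun z hz => h2 (.inl b) (.inl a) z (hk z hz))
      (fun z hz => h2 (.inr false) (.inl a) z (hk z hz))
      (fun z hz => h2 (.inr true) (.inl a) z (hk z hz))

/-- an element of the same kind at another place -/
def same (j : J) : El I → El J
  | .bot => .bot
  | .x _ => .x j
  | .y _ => .y j
  | .m _ => .m j
  | .top => .top

theorem ty_same (j : J) (u : El I) : ty (same j u) = ty u := by
  cases u <;> rfl

theorem plc_same (j : J) (u : El I) (h : plc p u = p ∧ (u = .bot ∨ u = .top) → j = p') :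
    plc p' (same j u) = j := by
  cases u <;> simp_all [same, plc]

theorem ex_snoc {n : ℕ} (x : Fin n → El I) (u : El I) (a : Fin (n + 1) ⊕ Bool) :
    (a = .inl (Fin.last n) ∧ ex p q (Fin.snoc x u : Fin (n + 1) → El I) a = plc p u) ∨
    ∃ b : Fin n ⊕ Bool, a = Sum.map Fin.castSucc id b ∧
      ex p q (Fin.snoc x u : Fin (n + 1) → El I) a = ex p q x b := by
  rcases a with a | a
  · refine Fin.lastCases ?_ (fun a => ?_) a
    · left
      simp [ex]
    · right
      exact ⟨.inl a, rfl, by simp [ex]⟩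
  · right
    refine ⟨.inr a, rfl, ?_⟩
    cases a <;> rfl

theorem ex_snoc_last {n : ℕ} (x : Fin n → El I) (u : El I) :
    ex p q (Fin.snoc x u : Fin (n + 1) → El I) (.inl (Fin.last n)) = plc p u := by
  simp [ex]

theorem ex_snoc_map {n : ℕ} (x : Fin n → El I) (u : El I) (b : Fin n ⊕ Bool) :
    ex p q (Fin.snoc x u : Fin (n + 1) → El I) (Sum.map Fin.castSucc id b) = ex p q x b := by
  rcases b with b | b
  · simp [ex]
  · cases b <;> rfl

theorem forth {K : ℕ} (hS : S.Free K) (hT : T.Free K) (hF : T.Far K) {k n : ℕ} (hn : n + (k + 1) ≤ K)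
    {x : Fin n → El I} {y : Fin n → El J} (h : Rel S T p q p' q' (k + 1) n x y) (u : El I) :
    ∃ v : El J, Rel S T p q p' q' k (n + 1) (Fin.snoc x u) (Fin.snoc y v) := by
  obtain ⟨h1, h2⟩ := h
  have hpow : (2 : ℤ) ^ (k + 1) = 2 ^ k + 2 ^ k := by ring
  have hpos : (0 : ℤ) < 2 ^ k := by positivity
  have hkK : (2 : ℤ) ^ k ≤ 2 ^ K := pow_le_pow_right₀ (by norm_num) (by omega)
  have hk1 : ∀ z : ℤ, |z| ≤ 2 ^ k → |z| ≤ 2 ^ (k + 1) := fun z hz => by rw [hpow]; linarith
  -- the new place
  have main : ∃ j : J, (plc p u = p ∧ (u = .bot ∨ u = .top) → j = p') ∧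
      (∀ z : ℤ, |z| ≤ 2 ^ k → (S.s z (plc p u) = plc p u ↔ T.s z j = j)) ∧
      ∀ b, ∀ z : ℤ, |z| ≤ 2 ^ k → (S.s z (plc p u) = ex p q x b ↔ T.s z j = ex p' q' y b) := by
    by_cases hbt : u = .bot ∨ u = .top
    · have hp : plc p u = p := by rcases hbt with rfl | rfl <;> rfl
      rw [hp]
      refine ⟨p', fun _ => rfl, fun z hz => h2 (.inr false) (.inr false) z (hk1 z hz),
        fun b z hz => h2 (.inr false) b z (hk1 z hz)⟩
    by_cases hc : ∃ b, ∃ w : ℤ, |w| ≤ 2 ^ k ∧ plc p u = S.s w (ex p q x b)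
    · obtain ⟨b0, w, hw, hi⟩ := hc
      refine ⟨T.s w (ex p' q' y b0), fun hh => absurd hh.2 hbt, fun z hz => ?_, fun b z hz => ?_⟩
      · have e : ∀ (I : Type) (S : Shift I) (i : I), S.s z (S.s w i) = S.s w i ↔ S.s z i = i := by
          intro I S i
          rw [← S.add, S.neg, ← S.add, S.neg]
          have : -(-(z + w) + w) = z := by ring
          rw [this]
        rw [hi, e, e]
        exact h2 b0 b0 z (hk1 z hz)
      · rw [hi, ← S.add, ← T.add]
        refine h2 b0 b (z + w) ?_
        rw [hpow]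
        exact le_trans (abs_add_le _ _) (add_le_add hz hw)
    · push Not at hc
      obtain ⟨j, hj⟩ := hF n (by omega) (ex p' q' y)
      refine ⟨j, fun hh => absurd hh.2 hbt, fun z hz => ?_, fun b z hz => ?_⟩
      · constructor
        · intro e
          rw [hS _ z (le_trans hz hkK) e, T.zero]
        · intro e
          rw [hT _ z (le_trans hz hkK) e, S.zero]
      · rw [S.neg, T.neg]
        constructor
        · intro e
          exact absurd e.symm (hc b (-z) (by rwa [abs_neg]))
        · intro e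
          exact absurd e.symm (hj b (-z) (by rw [abs_neg]; exact le_trans hz hkK))
  obtain ⟨j, j1, j2, j3⟩ := main
  have hpl := plc_same (p := p) (p' := p') j u j1
  refine ⟨same j u, fun a => ?_, fun a b z hz => ?_⟩
  · refine Fin.lastCases ?_ (fun a => ?_) a
    · simp [ty_same]
    · simpa using h1 a
  · rcases ex_snoc (p := p) (q := q) x u a with ⟨ha, ea⟩ | ⟨a', ha, ea⟩ <;>
      rcases ex_snoc (p := p) (q := q) x u b with ⟨hb, eb⟩ | ⟨b', hb, eb⟩
    · rw [ea, eb, ha, hb, ex_snoc_last, hpl]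
      exact j2 z hz
    · rw [ea, eb, ha, hb, ex_snoc_last, ex_snoc_map, hpl]
      exact j3 b' z hz
    · rw [ea, eb, ha, hb, ex_snoc_last, ex_snoc_map, hpl, S.neg, T.neg]
      exact j3 a' (-z) (by rwa [abs_neg])
    · rw [ea, eb, ha, hb, ex_snoc_map, ex_snoc_map]
      exact h2 a' b' z (hk1 z hz)

/-- Two posets over sets with shifts satisfy the same sentences of quantifier depth at most `K`. -/
theorem same_sentences {K : ℕ} (hS : S.Free K) (hT : T.Free K) (hF : T.Far K) (hF' : S.Far K)
    (h0 : Rel S T p q p' q' K 0 default default) (φ : Language.order.BoundedFormula Empty 0)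
    (hφ : qd φ ≤ K) :
    Sat (le (S.s 1) p q) φ default ↔ Sat (le (T.s 1) p' q') φ default :=
  game K (fun k n x y => Rel S T p q p' q' k n x y)
    (fun _ _ _ _ h a b => rel_zero h a b)
    (fun _ _ _ _ hn h u => forth hS hT hF hn h u)
    (fun _ _ _ _ hn h v => by
      obtain ⟨u, hu⟩ := forth hT hS hF' hn h.symm v
      exact ⟨u, hu.symm⟩)
    φ K default default hφ (by omega) h0

end

end Pool.Agent.Q324.FO
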