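import Pool.Agent.Q324.FO.Game

/-!
# Two families of posets with shifts
-/

namespace Pool.Agent.Q324.FO

open Pool.Agent.Q324.DP FirstOrder FirstOrder.Language

/-- the poset -/
@[reducible] def po {I : Type} (σ : I → I) (p q : I) : PartialOrder (El I) where
  le := le σ p q
  le_refl := le_refl
  le_trans := le_trans'
  le_antisymm := le_antisymm'

/-- one cycle -/
def one (M : ℕ) : Shift (ZMod M) where
  s := fun z i => i + z
  zero := fun i => by simp
  add := fun a b i => by push_cast; ring

/-- two cycles -/
def two (M : ℕ) : Shift (Bool × ZMod M) where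
  s := fun z i => (i.1, i.2 + z)
  zero := fun i => by simp
  add := fun a b i => by
    ext
    · rfl
    · push_cast; ring

theorem small {M : ℕ} {z : ℤ} (h : |z| < M) (hz : (z : ZMod M) = 0) : z = 0 := by
  rw [ZMod.intCast_zmod_eq_zero_iff_dvd] at hz
  exact Int.eq_zero_of_abs_lt_dvd hz h

theorem free_one {M K : ℕ} (h : 2 ^ K < M) : (one M).Free K := by
  intro i z hz e
  have e' : i + (z : ZMod M) = i := e
  refine small ?_ (by simpa using e')
  have : (2 : ℤ) ^ K < M := by exact_mod_cast h
  linarith

theorem free_two {M K : ℕ} (h : 2 ^ K < M) : (two M).Free K := by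
  intro i z hz e
  have e' : i.2 + (z : ZMod M) = i.2 := congrArg Prod.snd e
  refine small ?_ (by simpa using e')
  have : (2 : ℤ) ^ K < M := by exact_mod_cast h
  linarith

theorem rel_init {K M : ℕ} (h : 2 ^ K < M) :
    Rel (two M) (one (2 * M)) (false, 0) (true, 0) 0 (M : ZMod (2 * M)) K 0 default default := by
  have hM : (2 : ℤ) ^ K < M := by exact_mod_cast h
  refine ⟨fun a => a.elim0, fun a b z hz => ?_⟩
  have t1 : ((z : ZMod M) = 0) ↔ z = 0 := ⟨small (by linarith), by rintro rfl; simp⟩
  have t2 : ((z : ZMod (2 * M)) = 0) ↔ z = 0 :=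
    ⟨small (by push_cast; linarith), by rintro rfl; simp⟩
  have hz' := abs_le.1 hz
  have t3 : ¬ (z : ZMod (2 * M)) = (M : ZMod (2 * M)) := by
    intro e
    have e' : ((z - M : ℤ) : ZMod (2 * M)) = 0 := by push_cast; rw [e]; simp
    have := small (M := 2 * M) (z := z - M) (by push_cast; rw [abs_lt]; constructor <;> linarith) e'
    linarith
  have t4 : ¬ (M : ZMod (2 * M)) + (z : ZMod (2 * M)) = 0 := by
    intro e
    have e' : ((z + M : ℤ) : ZMod (2 * M)) = 0 := by push_cast; rw [add_comm]; exact e
    have := small (M := 2 * M) (z := z + M) (by push_cast; rw [abs_lt]; constructor <;> linarith) e'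
    linarith
  rcases a with a | a
  · exact a.elim0
  rcases b with b | b
  · exact b.elim0
  cases a <;> cases b
  · simp only [ex, two, one]
    rw [Prod.mk.injEq, zero_add, zero_add, t1, t2]
    simp
  · simp only [ex, two, one]
    rw [Prod.mk.injEq, zero_add, zero_add]
    simp [t3]
  · simp only [ex, two, one]
    rw [Prod.mk.injEq, zero_add]
    simp [t4]
  · simp only [ex, two, one]
    rw [Prod.mk.injEq, zero_add, add_eq_left, t1, t2]
    simp

/-- No first-order sentence characterises the finite `↓`-posets. -/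
theorem main (φ : Language.order.Sentence) : ∃ (P : Type) (_ : PartialOrder P) (_ : Finite P),
    ¬ (@Sentence.Realize Language.order P (orderStructure P) φ ↔
      IsDownPoset ((· ≤ ·) : P → P → Prop)) := by
  by_contra hne
  push Not at hne
  set K := qd φ with hK
  set M := (K + 2) * (2 * 2 ^ K + 1) + 1 with hMdef
  have hMpos : 0 < M := Nat.succ_pos _
  have hM : 2 ^ K < M := by
    rw [hMdef]
    nlinarith [Nat.zero_le K, Nat.zero_le (2 ^ K)]
  have : NeZero M := ⟨by omega⟩
  have : NeZero (2 * M) := ⟨by omega⟩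
  have hM2 : 2 ^ K < 2 * M := by omega
  have hF1 : (one (2 * M)).Far K := (one (2 * M)).far_of_card (by rw [ZMod.card]; omega)
  have hF2 : (two M).Far K := (two M).far_of_card (by
    rw [Fintype.card_prod, Fintype.card_bool, ZMod.card]; omega)
  have key := same_sentences (free_two hM) (free_one hM2) hF1 hF2 (rel_init hM) φ (le_of_eq hK.symm)
  have h1 := hne (El (Bool × ZMod M)) (po ((two M).s 1) (false, 0) (true, 0)) inferInstance
  have h2 := hne (El (ZMod (2 * M))) (po ((one (2 * M)).s 1) 0 (M : ZMod (2 * M))) inferInstance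
  have d1 : IsDownPoset (le ((two M).s 1) ((false, 0) : Bool × ZMod M) (true, 0)) :=
    isDownPoset_of (S := {i | i.1 = false}) (fun _ => Iff.rfl) rfl (by simp)
  have hne' : (0 : ZMod (2 * M)) ≠ (M : ZMod (2 * M)) := by
    intro e
    have e' : ((M : ℤ) : ZMod (2 * M)) = 0 := by push_cast; exact e.symm
    have := small (M := 2 * M) (z := M) (by push_cast; rw [abs_lt]; constructor <;> omega) e'
    omega
  have hit : ∀ n : ℕ, ((one (2 * M)).s 1)^[n] 0 = (n : ZMod (2 * M)) := by
    intro n
    induction n with
    | zero => simp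
    | succ n ih =>
      rw [Function.iterate_succ_apply', ih]
      simp [one]
  have d2 : ¬ IsDownPoset (le ((one (2 * M)).s 1) (0 : ZMod (2 * M)) (M : ZMod (2 * M))) :=
    not_isDownPoset_of (hit M) hne'
  exact d2 (h2.1 (key.1 (h1.2 d1)))

end Pool.Agent.Q324.FO
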