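import Pool.Agent.Q324.DP.AC

/-!
# A poset over a set with shifts

`I` is a set of places with shifts `s z : I → I`, `z ∈ ℤ`. The poset has a least element, atoms
`x i`, `y i`, elements `m i` above the atoms of the places `i` and `i + 1`, and one element `top`
above `m p` and `m q`.
-/

namespace Pool.Agent.Q324.FO

open Pool.Agent.Q324.DP

/-- the elements -/
inductive El (I : Type) where
  | bot : El I
  | x : I → El I
  | y : I → El I
  | m : I → El I
  | top : El I
deriving DecidableEq

variable {I : Type}

/-- the order relation -/
def le (σ : I → I) (p q : I) : El I → El I → Prop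
  | .bot, _ => True
  | .x i, .x j => i = j
  | .x i, .m j => i = j ∨ i = σ j
  | .x i, .top => i = p ∨ i = σ p ∨ i = q ∨ i = σ q
  | .y i, .y j => i = j
  | .y i, .m j => i = j ∨ i = σ j
  | .y i, .top => i = p ∨ i = σ p ∨ i = q ∨ i = σ q
  | .m i, .m j => i = j
  | .m i, .top => i = p ∨ i = q
  | .top, .top => True
  | _, _ => False

variable {σ : I → I} {p q : I}

theorem le_refl (u : El I) : le σ p q u u := by
  cases u <;> simp [le]

theorem le_trans' (u v w : El I) (h1 : le σ p q u v) (h2 : le σ p q v w) : le σ p q u w := by
  cases u <;> cases v <;> cases w <;> simp only [le] at h1 h2 ⊢ <;> first | contradiction | skip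
  all_goals first
    | (subst h1; exact h2)
    | (subst h2; exact h1)
    | exact h1
    | (rcases h1 with rfl | rfl <;> rcases h2 with rfl | rfl <;> simp)

theorem le_antisymm' (u v : El I) (h1 : le σ p q u v) (h2 : le σ p q v u) : u = v := by
  cases u <;> cases v <;> simp_all [le]

theorem le_bot (u : El I) : le σ p q u .bot ↔ u = .bot := by
  cases u <;> simp [le]

theorem le_x (u : El I) (i : I) : le σ p q u (.x i) ↔ u = .bot ∨ u = .x i := by
  cases u <;> simp [le]

theorem le_y (u : El I) (i : I) : le σ p q u (.y i) ↔ u = .bot ∨ u = .y i := by
  cases u <;> simp [le]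

/-- The place of an element different from `bot` and `top`. -/
def pl : El I → Option I
  | .x i => some i
  | .y i => some i
  | .m i => some i
  | _ => none

open Classical in
/-- The `↓`-function of an atom. -/
noncomputable def fat (σ : I → I) (p q : I) (c : El I) (u : El I) : El I :=
  if le σ p q c u then c else .bot

theorem down_fat {c : El I} (hc : ∀ u, le σ p q u c → u = .bot ∨ u = c) :
    Down (le σ p q) (fat σ p q c) := by
  classical
  refine ⟨fun u => ?_, fun u v h => ?_, fun u v h => ?_⟩
  · unfold fat
    split_ifs with h
    · exact h
    · trivial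
  · unfold fat
    by_cases h1 : le σ p q c u
    · rw [if_pos h1, if_pos (le_trans' _ _ _ h1 h)]
      exact le_refl _
    · rw [if_neg h1]
      trivial
  · have h1 : le σ p q u c := by
      unfold fat at h
      split_ifs at h
      · exact h
      · rw [le_bot] at h
        rw [h]
        trivial
    unfold fat
    rcases hc u h1 with rfl | rfl
    · split_ifs with h2
      · exact (le_bot _).1 h2
      · rfl
    · rw [if_pos (le_refl _)]

open Classical in
/-- The `↓`-function of one of the elements below `top`. -/
noncomputable def fst (S : Set I) (r : I) : El I → El I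
  | .bot => .bot
  | .x i => if i ∈ S then .x i else .bot
  | .y i => if i ∈ S then .y i else .bot
  | .m i => if i ∈ S then .m i else .bot
  | .top => .m r

theorem down_fst {S : Set I} {r r' : I} (hS : ∀ i, σ i ∈ S ↔ i ∈ S) (hr : r ∈ S) (hr' : r' ∉ S)
    (hpq : (r = p ∧ r' = q) ∨ (r = q ∧ r' = p)) : Down (le σ p q) (fst S r) := by
  classical
  have hle : ∀ u, le σ p q (fst S r u) u := by
    intro u
    cases u with
    | bot => trivial
    | x i => simp only [fst]; split_ifs <;> simp [le]
    | y i => simp only [fst]; split_ifs <;> simp [le]
    | m i => simp only [fst]; split_ifs <;> simp [le]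
    | top => rcases hpq with ⟨rfl, -⟩ | ⟨rfl, -⟩ <;> simp [fst, le]
  have hr2 : σ r ∈ S := (hS r).2 hr
  have hr3 : σ r' ∉ S := fun h => hr' ((hS r').1 h)
  refine ⟨hle, fun u v h => ?_, fun u v h => ?_⟩
  · cases u with
    | bot => trivial
    | x i =>
      by_cases hi : i ∈ S
      · cases v with
        | x j => obtain rfl : i = j := h; exact le_refl _
        | m j =>
          have hj : j ∈ S := by
            rcases h with rfl | rfl
            · exact hi
            · exact (hS j).1 hi
          simp only [fst, if_pos hi, if_pos hj]
          exact h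
        | top =>
          simp only [fst, if_pos hi]
          have h' : i = p ∨ i = σ p ∨ i = q ∨ i = σ q := h
          rcases hpq with ⟨rfl, rfl⟩ | ⟨rfl, rfl⟩
          · rcases h' with h' | h' | h' | h'
            · exact Or.inl h'
            · exact Or.inr h'
            · exact absurd (h' ▸ hi) hr'
            · exact absurd (h' ▸ hi) hr3
          · rcases h' with h' | h' | h' | h'
            · exact absurd (h' ▸ hi) hr'
            · exact absurd (h' ▸ hi) hr3
            · exact Or.inl h'
            · exact Or.inr h'
        | _ => exact absurd h (by simp [le])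
      · simp only [fst, if_neg hi]
        trivial
    | y i =>
      by_cases hi : i ∈ S
      · cases v with
        | y j => obtain rfl : i = j := h; exact le_refl _
        | m j =>
          have hj : j ∈ S := by
            rcases h with rfl | rfl
            · exact hi
            · exact (hS j).1 hi
          simp only [fst, if_pos hi, if_pos hj]
          exact h
        | top =>
          simp only [fst, if_pos hi]
          have h' : i = p ∨ i = σ p ∨ i = q ∨ i = σ q := h
          rcases hpq with ⟨rfl, rfl⟩ | ⟨rfl, rfl⟩
          · rcases h' with h' | h' | h' | h'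
            · exact Or.inl h'
            · exact Or.inr h'
            · exact absurd (h' ▸ hi) hr'
            · exact absurd (h' ▸ hi) hr3
          · rcases h' with h' | h' | h' | h'
            · exact absurd (h' ▸ hi) hr'
            · exact absurd (h' ▸ hi) hr3
            · exact Or.inl h'
            · exact Or.inr h'
        | _ => exact absurd h (by simp [le])
      · simp only [fst, if_neg hi]
        trivial
    | m i =>
      by_cases hi : i ∈ S
      · cases v with
        | m j => obtain rfl : i = j := h; exact le_refl _
        | top =>
          simp only [fst, if_pos hi]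
          have h' : i = p ∨ i = q := h
          rcases hpq with ⟨rfl, rfl⟩ | ⟨rfl, rfl⟩
          · rcases h' with h' | h'
            · exact h'
            · exact absurd (h' ▸ hi) hr'
          · rcases h' with h' | h'
            · exact absurd (h' ▸ hi) hr'
            · exact h'
        | _ => exact absurd h (by simp [le])
      · simp only [fst, if_neg hi]
        trivial
    | top =>
      cases v with
      | top => exact le_refl _
      | _ => exact absurd h (by simp [le])
  · have key : u = .bot ∨ ∃ i ∈ S, u = .x i ∨ u = .y i ∨ u = .m i := by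
      have hm : ∀ j ∈ S, le σ p q u (.m j) → u = .bot ∨ ∃ i ∈ S, u = .x i ∨ u = .y i ∨ u = .m i := by
        intro j hj hu
        cases u with
        | bot => exact Or.inl rfl
        | x i =>
          refine Or.inr ⟨i, ?_, Or.inl rfl⟩
          rcases hu with rfl | rfl
          · exact hj
          · exact (hS j).2 hj
        | y i =>
          refine Or.inr ⟨i, ?_, Or.inr (Or.inl rfl)⟩
          rcases hu with rfl | rfl
          · exact hj
          · exact (hS j).2 hj
        | m i =>
          obtain rfl : i = j := hu
          exact Or.inr ⟨i, hj, Or.inr (Or.inr rfl)⟩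
        | top => exact absurd hu (by simp [le])
      cases v with
      | bot => exact Or.inl ((le_bot _).1 h)
      | x j =>
        by_cases hj : j ∈ S
        · simp only [fst, if_pos hj] at h
          rcases (le_x _ _).1 h with rfl | rfl
          · exact Or.inl rfl
          · exact Or.inr ⟨j, hj, Or.inl rfl⟩
        · simp only [fst, if_neg hj] at h
          exact Or.inl ((le_bot _).1 h)
      | y j =>
        by_cases hj : j ∈ S
        · simp only [fst, if_pos hj] at h
          rcases (le_y _ _).1 h with rfl | rfl
          · exact Or.inl rfl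
          · exact Or.inr ⟨j, hj, Or.inr (Or.inl rfl)⟩
        · simp only [fst, if_neg hj] at h
          exact Or.inl ((le_bot _).1 h)
      | m j =>
        by_cases hj : j ∈ S
        · simp only [fst, if_pos hj] at h
          exact hm j hj h
        · simp only [fst, if_neg hj] at h
          exact Or.inl ((le_bot _).1 h)
      | top => exact hm r hr h
    rcases key with rfl | ⟨i, hi, rfl | rfl | rfl⟩
    · rfl
    · simp only [fst, if_pos hi]
    · simp only [fst, if_pos hi]
    · simp only [fst, if_pos hi]

/-- If `p` and `q` are separated by a set of places closed under the shift, the poset is a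
`↓`-poset. -/
theorem isDownPoset_of {S : Set I} (hS : ∀ i, σ i ∈ S ↔ i ∈ S) (hp : p ∈ S) (hq : q ∉ S) :
    IsDownPoset (le σ p q) := by
  rw [isDownPoset_iff le_refl le_trans' le_antisymm']
  have hid : ∀ d, ∃ f, Down (le σ p q) f ∧ f d = d := fun d =>
    ⟨id, ⟨fun _ => le_refl _, fun _ _ h => h, fun _ _ _ => rfl⟩, rfl⟩
  intro c d hcd
  by_cases hcd' : c = d
  · subst hcd'
    exact hid c
  cases c with
  | bot =>
    refine ⟨fat σ p q .bot, down_fat fun u hu => Or.inl ((le_bot _).1 hu), ?_⟩
    unfold fat
    rw [if_pos hcd]
  | x i =>
    refine ⟨fat σ p q (.x i), down_fat fun u hu => (le_x _ _).1 hu, ?_⟩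
    unfold fat
    rw [if_pos hcd]
  | y i =>
    refine ⟨fat σ p q (.y i), down_fat fun u hu => (le_y _ _).1 hu, ?_⟩
    unfold fat
    rw [if_pos hcd]
  | m i =>
    cases d with
    | m j => exact absurd (congrArg El.m (show i = j from hcd)) hcd'
    | top =>
      rcases (show i = p ∨ i = q from hcd) with rfl | rfl
      · exact ⟨fst S i, down_fst hS hp hq (Or.inl ⟨rfl, rfl⟩), rfl⟩
      · exact ⟨fst Sᶜ i, down_fst (fun j => by simp [hS j]) hq (fun h => h hp)
          (Or.inr ⟨rfl, rfl⟩), rfl⟩
    | _ => exact absurd hcd (by simp [le])
  | top =>
    cases d with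
    | top => exact absurd rfl hcd'
    | _ => exact absurd hcd (by simp [le])

/-- If `q` is obtained from `p` by shifts and different from `p`, the poset is no `↓`-poset. -/
theorem not_isDownPoset_of {n : ℕ} (hn : σ^[n] p = q) (hpq : p ≠ q) :
    ¬ IsDownPoset (le σ p q) := by
  rw [isDownPoset_iff le_refl le_trans' le_antisymm']
  intro h
  obtain ⟨f, ⟨f1, f2, f3⟩, hf⟩ := h (.m p) .top (Or.inl rfl)
  have key : ∀ k, f (.m (σ^[k] p)) = .m (σ^[k] p) := by
    intro k
    induction k with
    | zero => exact f3 _ .top (by rw [hf]; exact le_refl _)
    | succ k ih =>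
      rw [Function.iterate_succ_apply']
      set j := σ^[k] p
      have hx : f (.x (σ j)) = .x (σ j) := f3 _ (.m j) (by rw [ih]; exact Or.inr rfl)
      have hy : f (.y (σ j)) = .y (σ j) := f3 _ (.m j) (by rw [ih]; exact Or.inr rfl)
      have h1 := f2 (.x (σ j)) (.m (σ j)) (Or.inl rfl)
      have h2 := f2 (.y (σ j)) (.m (σ j)) (Or.inl rfl)
      have h3 := f1 (.m (σ j))
      rw [hx] at h1
      rw [hy] at h2
      revert h1 h2 h3
      cases f (.m (σ j)) <;> simp [le]
  have h1 := f2 (.m q) .top (Or.inr rfl)
  rw [hf, ← hn, key n] at h1
  exact hpq (hn ▸ (show σ^[n] p = p from h1).symm)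

end Pool.Agent.Q324.FO
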